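import Pool.Agent.H37.CNS.Stmts
import Pool.Agent.H14.CNH.UQT
import Pool.Agent.H1.CNZ.TWI

/-!
# Row TWB of the board `cns`: bound for the conductor of the twisted cover
-/

set_option autoImplicit false

namespace Pool.CND

namespace TWB

open Finset H14UQT

section comb

open scoped Classical

variable {G : Type} [Group G] [Fintype G]

/-- double counting of cosets -/
theorem double (b : G → ℤ) (N I : Subgroup G) (hN : N ≤ I) :
    (∑ g, if g ∈ I ∧ g ∉ N then sm b {x | g⁻¹ * x ∈ N} else 0) =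
      Nat.card N * sm b {g | g ∈ I ∧ g ∉ N} := by
  have h1 : ∀ g, (if g ∈ I ∧ g ∉ N then sm b {x | g⁻¹ * x ∈ N} else 0) =
      ∑ x, if (x ∈ I ∧ x ∉ N) ∧ x⁻¹ * g ∈ N then b x else 0 := by
    intro g
    rw [sm_eq]
    by_cases hg : g ∈ I ∧ g ∉ N
    · rw [if_pos hg]
      refine Finset.sum_congr rfl fun x _ => ?_
      by_cases hx : g⁻¹ * x ∈ N
      · have h2 : x⁻¹ * g ∈ N := by
          have := N.inv_mem hx
          rwa [mul_inv_rev, inv_inv] at this
        have h3 : x ∈ I := by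
          have := I.mul_mem hg.1 (hN hx)
          rwa [mul_inv_cancel_left] at this
        have h4 : x ∉ N := by
          intro h5
          apply hg.2
          have := N.mul_mem h5 h2
          rwa [mul_inv_cancel_left] at this
        rw [if_pos (show x ∈ {x | g⁻¹ * x ∈ N} from hx), if_pos ⟨⟨h3, h4⟩, h2⟩]
      · rw [if_neg (show ¬ x ∈ {x | g⁻¹ * x ∈ N} from hx), if_neg]
        rintro ⟨-, h2⟩
        apply hx
        have := N.inv_mem h2
        rwa [mul_inv_rev, inv_inv] at this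
    · rw [if_neg hg]
      symm
      apply Finset.sum_eq_zero
      intro x _
      rw [if_neg]
      rintro ⟨⟨h3, h4⟩, h2⟩
      apply hg
      constructor
      · have := I.mul_mem h3 (hN h2)
        rwa [mul_inv_cancel_left] at this
      · intro h5
        apply h4
        have := N.mul_mem h5 (N.inv_mem h2)
        rwa [mul_inv_rev, inv_inv, mul_inv_cancel_left] at this
  rw [Finset.sum_congr rfl fun g _ => h1 g, Finset.sum_comm, sm_eq, Finset.mul_sum]
  refine Finset.sum_congr rfl fun x _ => ?_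
  by_cases hx : x ∈ I ∧ x ∉ N
  · rw [if_pos (show x ∈ {g | g ∈ I ∧ g ∉ N} from hx), ← sum_coset_const N x (b x)]
    refine Finset.sum_congr rfl fun g _ => ?_
    by_cases hg : x⁻¹ * g ∈ N
    · rw [if_pos hg, if_pos ⟨hx, hg⟩]
    · rw [if_neg hg, if_neg (fun h => hg h.2)]
  · rw [if_neg (show ¬ x ∈ {g | g ∈ I ∧ g ∉ N} from hx), mul_zero]
    apply Finset.sum_eq_zero
    intro g _
    rw [if_neg (fun h => hx h.1)]

/-- the sum off a subgroup of index `p`, from a bound on the cosets -/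
theorem step (b : G → ℤ) (N I : Subgroup G) (hN : N ≤ I) (p : ℕ) (M : ℤ)
    (hcard : Nat.card I = p * Nat.card N)
    (h : ∀ g ∈ I, g ∉ N → sm b {x | g⁻¹ * x ∈ N} ≤ M) :
    sm b {g | g ∈ I ∧ g ∉ N} ≤ ((p : ℤ) - 1) * M := by
  have h1 := double b N I hN
  have h2 : (∑ g, if g ∈ I ∧ g ∉ N then sm b {x | g⁻¹ * x ∈ N} else 0) ≤
      ∑ g, if g ∈ I ∧ g ∉ N then M else 0 := by
    refine Finset.sum_le_sum fun g _ => ?_
    by_cases hg : g ∈ I ∧ g ∉ N
    · rw [if_pos hg, if_pos hg]
      exact h g hg.1 hg.2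
    · rw [if_neg hg, if_neg hg]
  have h3 : (∑ g, if g ∈ I ∧ g ∉ N then M else 0) = Nat.card I * M - Nat.card N * M := by
    rw [← sum_const_mem I M, ← sum_const_mem N M, ← Finset.sum_sub_distrib]
    refine Finset.sum_congr rfl fun g _ => ?_
    by_cases hg : g ∈ N
    · rw [if_neg (fun h => h.2 hg), if_pos (hN hg), if_pos hg, sub_self]
    · by_cases hi : g ∈ I
      · rw [if_pos ⟨hi, hg⟩, if_pos hi, if_neg hg, sub_zero]
      · rw [if_neg (fun h => hi h.1), if_neg hi, if_neg hg, sub_zero]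
  have hpos : 0 < (Nat.card N : ℤ) := by
    have : 0 < Nat.card N := Nat.card_pos
    exact_mod_cast this
  have h4 : (Nat.card N : ℤ) * sm b {g | g ∈ I ∧ g ∉ N} ≤
      (Nat.card N : ℤ) * (((p : ℤ) - 1) * M) := by
    rw [← h1]
    refine h2.trans (le_of_eq ?_)
    rw [h3, hcard]
    push_cast
    ring
  exact le_of_mul_le_mul_left h4 hpos

theorem split3 (b : G → ℤ) (R S : Subgroup G) (hR : R ≤ S) :
    sm b {g | g ∈ (⊤ : Subgroup G) ∧ g ≠ 1} = sm b {g | g ∈ R ∧ g ≠ 1} +
      sm b {g | g ∈ S ∧ g ∉ R} + sm b {g | g ∉ S} := by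
  rw [sm_eq, sm_eq, sm_eq, sm_eq, ← Finset.sum_add_distrib, ← Finset.sum_add_distrib]
  refine Finset.sum_congr rfl fun g _ => ?_
  simp only [Set.mem_ofPred_eq, Subgroup.mem_top, true_and]
  by_cases h1 : g = 1
  · subst h1
    simp [R.one_mem, S.one_mem]
  · by_cases h2 : g ∈ R
    · simp [h1, h2, hR h2]
    · by_cases h3 : g ∈ S
      · simp [h1, h2, h3]
      · simp [h1, h2, h3]

theorem split2 (b : G → ℤ) (S N : Subgroup G) (hS : S ≤ N) :
    sm b {g | g ∉ S} = sm b {g | g ∈ (⊤ : Subgroup G) ∧ g ∉ N} + sm b {g | g ∈ N ∧ g ∉ S} := by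
  rw [sm_eq, sm_eq, sm_eq, ← Finset.sum_add_distrib]
  refine Finset.sum_congr rfl fun g _ => ?_
  simp only [Set.mem_ofPred_eq, Subgroup.mem_top, true_and]
  by_cases h2 : g ∈ N
  · by_cases h3 : g ∈ S
    · simp [h2, h3]
    · simp [h2, h3]
  · have h3 : g ∉ S := fun h => h2 (hS h)
    simp [h2, h3]

/-- the sum over `N \ S` is at most the sum over a coset of `N` of a last element off `S` -/
theorem off_le (b : G → ℤ) (hU : UM b ⊤) (N S : Subgroup G) (g₀ : G) (hg₀ : g₀ ∉ N)
    (hmax : ∀ g : G, g ∉ S → b g ≤ b g₀) :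
    sm b {g | g ∈ N ∧ g ∉ S} ≤ sm b {x | g₀⁻¹ * x ∈ N} := by
  rw [coset_sum, sm_eq]
  refine Finset.sum_le_sum fun n _ => ?_
  have hg1 : g₀ ≠ 1 := fun h => hg₀ (h ▸ N.one_mem)
  by_cases hn : n ∈ N
  · have h1 : g₀ * n ≠ 1 := by
      intro h
      apply hg₀
      rw [eq_inv_of_mul_eq_one_left h]
      exact N.inv_mem hn
    rw [if_pos hn]
    by_cases hS : n ∈ S
    · rw [if_neg (fun h => h.2 hS)]
      have := hU.pos (g₀ * n) (Subgroup.mem_top _) h1
      omega
    · rw [if_pos ⟨hn, hS⟩]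
      have hn1 : n ≠ 1 := fun h => hS (h ▸ S.one_mem)
      have h2 := hU.mul g₀ (Subgroup.mem_top _) n (Subgroup.mem_top _) hg1 hn1 h1
      rw [min_eq_right (hmax n hS)] at h2
      exact h2
  · rw [if_neg hn, if_neg (fun h => hn h.1)]

/-- the sum over `R` is at most the sum over the coset of a last element -/
theorem last_le (b : G → ℤ) (hU : UM b ⊤) (R : Subgroup G) (a : G) (haR : a ∉ R) (l : ℤ)
    (hal : b a = l) (hmax : ∀ g : G, g ≠ 1 → b g ≤ l) :
    l + sm b {g | g ∈ R ∧ g ≠ 1} ≤ sm b {x | a⁻¹ * x ∈ R} := by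
  rw [coset_sum, sm_eq, split_one (fun n => b (a * n)) R, mul_one, hal]
  apply add_le_add le_rfl
  refine Finset.sum_le_sum fun n _ => ?_
  by_cases hn : n ∈ R ∧ n ≠ 1
  · have ha1 : a ≠ 1 := fun h => haR (h ▸ R.one_mem)
    have h1 : a * n ≠ 1 := by
      intro h
      apply haR
      rw [eq_inv_of_mul_eq_one_left h]
      exact R.inv_mem hn.1
    rw [if_pos hn, if_pos (show n ∈ {g | g ∈ R ∧ g ≠ 1} from hn)]
    have h2 := hU.mul a (Subgroup.mem_top _) n (Subgroup.mem_top _) ha1 hn.2 h1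
    rw [hal, min_eq_right (hmax n hn.2)] at h2
    exact h2
  · rw [if_neg hn, if_neg (show ¬ n ∈ {g | g ∈ R ∧ g ≠ 1} from hn)]

end comb

section ords

variable {k L : Type} [Field k] [Field L] [Algebra k L] (P : Place k L)

theorem ge_aeval {x : L} (hx : x ≠ 0) (hlt : P.ord x < 0) (r : Polynomial k) (N : ℕ)
    (hN : r.natDegree ≤ N) : P.Ge (Polynomial.aeval x r) (N * P.ord x) := by
  rw [Polynomial.aeval_eq_sum_range]
  refine P.ge_sum _ _ _ fun i hi => ?_
  have hi' : i ≤ N := by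
    have := Finset.mem_range.1 hi
    omega
  rw [Algebra.smul_def]
  have h1 := P.ge_mul (P.ge_const (r.coeff i)) (Or.inr le_rfl : P.Ge (x ^ i) (P.ord (x ^ i)))
  rw [zero_add, P.ord_pow hx] at h1
  refine P.ge_mono h1 ?_
  have : (i : ℤ) ≤ N := by exact_mod_cast hi'
  nlinarith

/-- order of a polynomial at an element of negative order -/
theorem ord_aeval {x : L} (hx : x ≠ 0) (hlt : P.ord x < 0) (g : Polynomial k)
    (hg : 1 ≤ g.natDegree) :
    Polynomial.aeval x g ≠ 0 ∧ P.ord (Polynomial.aeval x g) = g.natDegree * P.ord x := by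
  have h1 := Polynomial.eraseLead_add_monomial_natDegree_leadingCoeff g
  have hl : g.leadingCoeff ≠ 0 := by
    intro h
    rw [Polynomial.leadingCoeff_eq_zero] at h
    rw [h, Polynomial.natDegree_zero] at hg
    omega
  have hl' : algebraMap k L g.leadingCoeff ≠ 0 := by
    rwa [Ne, map_eq_zero]
  have h2 : Polynomial.aeval x g =
      algebraMap k L g.leadingCoeff * x ^ g.natDegree + Polynomial.aeval x g.eraseLead := by
    conv_lhs => rw [← h1]
    rw [map_add, Polynomial.aeval_monomial, add_comm]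
  have h3 : P.ord (algebraMap k L g.leadingCoeff * x ^ g.natDegree) = g.natDegree * P.ord x := by
    rw [P.ord_mul _ _ hl' (pow_ne_zero _ hx), P.ord_const _ hl, P.ord_pow hx, zero_add]
  have h4 := ge_aeval P hx hlt g.eraseLead (g.natDegree - 1) (Polynomial.eraseLead_natDegree_le g)
  have h5 : P.Ge (Polynomial.aeval x g.eraseLead)
      (P.ord (algebraMap k L g.leadingCoeff * x ^ g.natDegree) + 1) := by
    refine P.ge_mono h4 ?_
    rw [h3]
    have : ((g.natDegree - 1 : ℕ) : ℤ) = g.natDegree - 1 := by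
      push_cast [hg]
      ring
    rw [this]
    nlinarith
  obtain ⟨h6, h7⟩ := P.ord_add_of_lt (mul_ne_zero hl' (pow_ne_zero _ hx)) h5
  rw [h2]
  exact ⟨h6, by rw [h7, h3]⟩

/-- orders of `y` and `y ^ p - y` -/
theorem ord_as {y : L} {p : ℕ} (hp : 2 ≤ p) (hy : y ≠ 0) (hneg : P.ord y < 0) :
    y ^ p - y ≠ 0 ∧ P.ord (y ^ p - y) = p * P.ord y := by
  have hp' : (2 : ℤ) ≤ p := by exact_mod_cast hp
  have h3 : P.Ge (-y) (P.ord (y ^ p) + 1) := by
    refine P.ge_mono (P.ge_neg (P.ge_ord y)) ?_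
    rw [P.ord_pow hy]
    nlinarith
  obtain ⟨h5, h4⟩ := P.ord_add_of_lt (pow_ne_zero p hy) h3
  rw [← sub_eq_add_neg] at h4 h5
  exact ⟨h5, by rw [h4, P.ord_pow hy]⟩

theorem as_ge {y : L} {p : ℕ} {M : ℤ} (hp : 2 ≤ p) (hM : 0 ≤ M) (hy : y ≠ 0)
    (h : P.Ge (y ^ p - y) (-M)) : -M ≤ (p : ℤ) * P.ord y := by
  by_cases hc : 0 ≤ P.ord y
  · have hp' : (0 : ℤ) ≤ p := by positivity
    nlinarith [mul_nonneg hp' hc]
  rw [not_le] at hc
  obtain ⟨h5, h4⟩ := ord_as P hp hy hc
  have := (P.ge_iff h5 _).1 h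
  rw [h4] at this
  exact this

theorem as_eq {y r : L} {p : ℕ} (hp : 2 ≤ p) (hr : r ≠ 0) (hlt : P.ord r < 0)
    (h : y ^ p - y = r) : y ≠ 0 ∧ (p : ℤ) * P.ord y = P.ord r := by
  have hy : y ≠ 0 := by
    intro hy
    rw [hy, zero_pow (by omega), sub_zero] at h
    exact hr h.symm
  refine ⟨hy, ?_⟩
  have hneg : P.ord y < 0 := by
    by_contra hc
    rw [not_lt] at hc
    have h1 : P.Ge (y ^ p) 0 := Or.inr (by rw [P.ord_pow hy]; positivity)
    have h2 : P.Ge (y ^ p - y) 0 := P.ge_sub h1 (Or.inr hc)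
    rw [h] at h2
    have := (P.ge_iff hr 0).1 h2
    omega
  rw [← h, (ord_as P hp hy hneg).2]

end ords

section red

variable {k L G : Type} [Field k] [IsAlgClosed k] [Field L] [Algebra k L] [Group G]

omit [IsAlgClosed k] in
theorem fp_inj {p : ℕ} (hp : p.Prime) [CharP k p] {a : ZMod p} (h : fp k a = 0) : a = 0 := by
  have := Fact.mk hp
  unfold fp at h
  exact (map_eq_zero_iff _ (RingHom.injective _)).1 h

theorem const_of_as {p : ℕ} (hp : 2 ≤ p) {W : L} (h : W ^ p - W = 0) :
    ∃ c : k, W = algebraMap k L c := by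
  have hint : IsIntegral k W := by
    refine ⟨Polynomial.X ^ p - Polynomial.X, ?_, ?_⟩
    · apply Polynomial.monic_X_pow_sub
      rw [Polynomial.degree_X]
      exact_mod_cast hp
    · rw [Polynomial.eval₂_sub, Polynomial.eval₂_pow, Polynomial.eval₂_X, h]
  obtain ⟨c, hc⟩ := minpoly.mem_range_of_degree_eq_one k W
    (IsAlgClosed.degree_eq_one_of_irreducible k (minpoly.irreducible hint))
  exact ⟨c, hc.symm⟩

omit [IsAlgClosed k] in
theorem fix_aeval (φ : L ≃ₐ[k] L) (t : L) (h : φ t = t) (r : Polynomial k) :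
    φ (Polynomial.aeval t r) = Polynomial.aeval t r := by
  have h1 : Polynomial.aeval (φ t) r = φ (Polynomial.aeval t r) :=
    Polynomial.aeval_algHom_apply (φ : L →ₐ[k] L) t r
  rw [h] at h1
  exact h1.symm

/-- a reduced Artin-Schreier generator -/
theorem reduce (hXRD : S_XRD) {p : ℕ} (hp : p.Prime) [CharP k p] (ρ : G →* (L ≃ₐ[k] L)) (t : L)
    (hfix : ∀ g, ρ g t = t) (χ : G → ZMod p) (g₀ : G) (hχ : χ g₀ ≠ 0) (Y : L) (f : Polynomial k)
    (A : ℕ) (hf : f.natDegree ≤ A) (hY : Y ^ p - Y = Polynomial.aeval t f)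
    (hact : ∀ g, ρ g Y = Y + algebraMap k L (fp k (χ g))) :
    ∃ (Y' : L) (f' : Polynomial k), Y' ^ p - Y' = Polynomial.aeval t f' ∧
      (∀ g, ρ g Y' = Y' + algebraMap k L (fp k (χ g))) ∧ 1 ≤ f'.natDegree ∧
      ¬ p ∣ f'.natDegree ∧ f'.natDegree ≤ A := by
  have := Fact.mk hp
  have : CharP L p := charP_of_injective_algebraMap (algebraMap k L).injective p
  have hY' : ∀ r : Polynomial k, (Y - Polynomial.aeval t r) ^ p - (Y - Polynomial.aeval t r) =
      Polynomial.aeval t (f - (r ^ p - r)) := by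
    intro r
    rw [sub_pow_char, map_sub, map_sub, map_pow, ← hY]
    ring
  have hact' : ∀ (r : Polynomial k) (g : G), ρ g (Y - Polynomial.aeval t r) =
      (Y - Polynomial.aeval t r) + algebraMap k L (fp k (χ g)) := by
    intro r g
    rw [map_sub, hact, fix_aeval _ _ (hfix g)]
    ring
  rcases hXRD p k f hp with ⟨r, hr⟩ | ⟨D, r, hD1, hD2, hD3⟩
  · exfalso
    have h1 : (Y - Polynomial.aeval t r) ^ p - (Y - Polynomial.aeval t r) = 0 := by
      rw [hY', ← hr, sub_self, map_zero]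
    obtain ⟨c, hc⟩ := const_of_as (k := k) hp.two_le h1
    have h2 := hact' r g₀
    rw [hc, AlgEquiv.commutes] at h2
    have h3 : algebraMap k L (fp k (χ g₀)) = 0 := by linear_combination -h2
    rw [map_eq_zero] at h3
    exact hχ (fp_inj hp h3)
  · refine ⟨_, f - (r ^ p - r), hY' r, hact' r, by rw [hD3]; exact hD1, by rw [hD3]; exact hD2, ?_⟩
    rw [hD3]
    refine le_trans ?_ hf
    by_contra hcon
    rw [not_le] at hcon
    have h1 : (r ^ p - r).natDegree = D := by
      have e1 : r ^ p - r = f - (f - (r ^ p - r)) := by ring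
      rw [e1, Polynomial.natDegree_sub_eq_right_of_natDegree_lt (by rw [hD3]; exact hcon), hD3]
    by_cases hr0 : r.natDegree = 0
    · obtain ⟨c, hc⟩ := Polynomial.natDegree_eq_zero.1 hr0
      have : (r ^ p - r).natDegree = 0 := by
        rw [← hc, ← Polynomial.C_pow, ← Polynomial.C_sub, Polynomial.natDegree_C]
      omega
    · have h2 : r.natDegree < (r ^ p).natDegree := by
        rw [Polynomial.natDegree_pow]
        have := hp.two_le
        nlinarith [Nat.pos_of_ne_zero hr0]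
      rw [Polynomial.natDegree_sub_eq_left_of_natDegree_lt h2, Polynomial.natDegree_pow] at h1
      exact hD2 (h1 ▸ dvd_mul_right p _)

end red

section main

variable {k L G : Type} [Field k] [IsAlgClosed k] [Field L] [Algebra k L] [Group G] [Fintype G]

/-- the sum off `S` for a totally ramified cover with enough characters of degree at most `A` -/
theorem off_sum (hXRD : S_XRD) (hHBX : S_HBX) {p : ℕ} (hp : p.Prime) [CharP k p]
    (P : Place k L) (ρ : G →* (L ≃ₐ[k] L)) (hinj : Function.Injective ρ) (t : L)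
    (hfix : ∀ g, ρ g t = t) (hram : ∀ g : G, g ∈ ram P ρ 1) (ht0 : t ≠ 0)
    (ht : P.ord t = -(Nat.card G : ℤ)) (hU : UM (fun g => P.b (ρ g)) ⊤) (S : Subgroup G) (A : ℕ)
    (hS : ∀ g : G, g ∉ S → ∃ (χ : G → ZMod p) (Y : L) (f : Polynomial k), χ g ≠ 0 ∧
      (∀ a b : G, χ (a * b) = χ a + χ b) ∧ (∀ s ∈ S, χ s = 0) ∧ f.natDegree ≤ A ∧
      Y ^ p - Y = Polynomial.aeval t f ∧ ∀ g, ρ g Y = Y + algebraMap k L (fp k (χ g))) :
    sm (fun g => P.b (ρ g)) {g | g ∉ S} ≤ Nat.card G * A := by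
  classical
  have hfact := Fact.mk hp
  have hcardpos : 0 < (Nat.card G : ℤ) := by
    have : 0 < Nat.card G := Nat.card_pos
    exact_mod_cast this
  by_cases hne : ∃ g : G, g ∉ S
  · obtain ⟨g₀, hg₀, hmax⟩ := Finset.exists_max_image (Finset.univ.filter (fun g : G => g ∉ S))
      (fun g => P.b (ρ g)) (by
        obtain ⟨g, hg⟩ := hne
        exact ⟨g, by simpa using hg⟩)
    have hg₀S : g₀ ∉ S := by simpa using hg₀
    have hmax' : ∀ g : G, g ∉ S → P.b (ρ g) ≤ P.b (ρ g₀) := fun g hg => hmax g (by simpa using hg)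
    obtain ⟨χ, Y, f, hχ, hadd, hχS, hf, hY, hact⟩ := hS g₀ hg₀S
    obtain ⟨Y', f', hY', hact', hf1, hfp, hfA⟩ :=
      reduce hXRD hp ρ t hfix χ g₀ hχ Y f A hf hY hact
    have hχ1 : χ 1 = 0 := by
      have := hadd 1 1
      rw [mul_one] at this
      linear_combination -this
    let χh : G →* Multiplicative (ZMod p) :=
      { toFun := fun g => Multiplicative.ofAdd (χ g)
        map_one' := by rw [hχ1]; rfl
        map_mul' := fun a b => by rw [hadd]; rfl }
    let N : Subgroup G := χh.ker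
    have hN : ∀ g : G, g ∈ N ↔ χ g = 0 := by
      intro g
      rw [MonoidHom.mem_ker]
      exact Iff.rfl
    have hSN : S ≤ N := fun s hs => (hN s).2 (hχS s hs)
    have hg₀N : g₀ ∉ N := fun h => hχ ((hN g₀).1 h)
    have hcard : Nat.card G = p * Nat.card N := by
      have h1 := Subgroup.card_mul_index N
      have h2 : N.index = p := by
        have h3 : N.index = Nat.card χh.range := Subgroup.index_ker χh
        have h4 : Nat.card χh.range ∣ p := by
          have := Subgroup.card_subgroup_dvd_card χh.range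
          rwa [Nat.card_eq_fintype_card (α := Multiplicative (ZMod p)), Fintype.card_multiplicative,
            ZMod.card] at this
        rcases (Nat.dvd_prime hp).1 h4 with h5 | h5
        · exfalso
          apply hg₀N
          have h6 := Subgroup.eq_bot_of_card_eq _ h5
          rw [MonoidHom.range_eq_bot_iff] at h6
          show g₀ ∈ χh.ker
          rw [h6]
          exact MonoidHom.mem_ker.2 (MonoidHom.one_apply g₀)
        · rw [h3, h5]
      rw [← h1, h2, mul_comm]
    have htneg : P.ord t < 0 := by rw [ht]; omega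
    obtain ⟨ha0, ha1⟩ := ord_aeval P ht0 htneg f' hf1
    have hf1' : (1 : ℤ) ≤ f'.natDegree := by exact_mod_cast hf1
    obtain ⟨hY0, hYord⟩ := as_eq P hp.two_le ha0 (by rw [ha1]; nlinarith) hY'
    have hord : P.ord Y' = -((f'.natDegree * Nat.card N : ℕ) : ℤ) := by
      rw [ha1, ht, hcard] at hYord
      have hp0 : (p : ℤ) ≠ 0 := by exact_mod_cast hp.ne_zero
      apply mul_left_cancel₀ hp0
      rw [hYord]
      push_cast
      ring
    have hcos : ∀ g ∈ (⊤ : Subgroup G), g ∉ N →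
        sm (fun g => P.b (ρ g)) {x | g⁻¹ * x ∈ N} ≤ Nat.card N * f'.natDegree := by
      intro g hg hgN
      refine le_of_eq (hHBX p k L G P ρ N ⊤ g Y' (fp k (χ g)) f'.natDegree hp inferInstance hinj
        le_top (fun g _ => hram g) ?_ hg hgN ?_ hY0 ?_ (hact' g) hord hfp hf1)
      · intro g _ n hn
        exact (inferInstance : N.Normal).conj_mem n hn g
      · intro n hn
        rw [hact', (hN n).1 hn]
        simp [fp]
      · intro h
        exact hgN ((hN g).2 (fp_inj hp h))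
    have h1 := step (fun g => P.b (ρ g)) N ⊤ le_top p _ (by rw [Subgroup.card_top, hcard]) hcos
    have h2 := off_le (fun g => P.b (ρ g)) hU N S g₀ hg₀N hmax'
    have h3 := hcos g₀ (Subgroup.mem_top _) hg₀N
    rw [split2 _ S N hSN]
    have hfA' : (f'.natDegree : ℤ) ≤ A := by exact_mod_cast hfA
    have h4 : (Nat.card G : ℤ) * f'.natDegree ≤ Nat.card G * A :=
      mul_le_mul_of_nonneg_left hfA' hcardpos.le
    refine le_trans ?_ h4
    rw [hcard]
    push_cast
    nlinarith
  · push Not at hne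
    rw [sm_eq]
    rw [Finset.sum_eq_zero]
    · positivity
    · intro g _
      rw [if_neg]
      exact fun h => h (hne g)

end main

end TWB

open TWB Finset in
theorem twb_thm (hPTR : S_PTR) (hINF : S_INF) (hASD : S_ASD) (hHER : S_HER) (hFXP : S_FXP)
    (hRST : S_RST) (hLON : S_LON) (hRAM : S_RAM) (hCON : S_CON) (hUMW : S_UMW) (hXRD : S_XRD)
    (hHBX : S_HBX) : S_TWB := by
  intro p m A k L L' G G' _ _ _ _ _ _ _ _ _ _ _ ρ t x y X Y f h π z γ ρ' j Z α P' c hp hG' T
    hC hQ hZ hact hA hdeg hneg hcond l hl hlast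
  classical
  have hfact := Fact.mk hp
  have := Fintype.ofFinite G'
  -- the group is totally wildly ramified
  have hun := hPTR p k L' G' ρ' (j t) P' hp inferInstance hG' hC hneg
  have hram : ∀ g : G', g ∈ ram P' ρ' 1 := fun g => by rw [hun]; exact Set.mem_univ g
  have hfix : ∀ g : G', Fixes P' (ρ' g) := fun g => (hram g).1
  have h0 : ((⊤ : Subgroup G') : Set G') = ram P' ρ' 0 := by
    ext g
    exact ⟨fun _ => TWI.mem_ram_zero P' ρ' g (hfix g), fun _ => Subgroup.mem_top g⟩
  have h1 : ((⊤ : Subgroup G') : Set G') = ram P' ρ' 1 := by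
    rw [hun]
    rfl
  have hU : UM (fun g => P'.b (ρ' g)) ⊤ := hUMW k L' G' P' ρ' ⊤ hC.inj h1
  have hord := hINF k L' G' ρ' (j t) P' ⊤ hC hneg h0
  rw [Subgroup.card_top] at hord
  have hcardpos : 0 < (Nat.card G' : ℤ) := by
    have : 0 < Nat.card G' := Nat.card_pos
    exact_mod_cast this
  have hcardpos' : 0 < (Nat.card G' : ℚ) := by exact_mod_cast hcardpos
  have hAq : (1 : ℚ) ≤ A := by exact_mod_cast hA
  have hAz : (1 : ℤ) ≤ A := by exact_mod_cast hA
  have hpq : (0 : ℚ) < p := by exact_mod_cast hp.pos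
  have hjt0 : j t ≠ 0 := by
    intro h
    apply hC.trans
    rw [h]
    exact isAlgebraic_zero
  have hjt : ∀ g : G', ρ' g (j t) = j t :=
    (hC.fixed (j t)).2 (IntermediateField.mem_adjoin_simple_self k (j t))
  -- the characters at one
  have hx1 : ∀ i, x i 1 = 0 := by
    intro i
    have := T.x_mul i 1 1
    rw [mul_one] at this
    linear_combination -this
  have hy1 : ∀ i, y i 1 = 0 := by
    intro i
    have := T.y_mul i 1 1
    rw [mul_one] at this
    linear_combination -this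
  have hγ1 : γ 1 = 0 := by
    have := T.γ_mul 1 1
    rw [mul_one, map_one, Finset.sum_eq_zero (fun i _ => by rw [hx1 i, zero_mul])] at this
    linear_combination -this
  -- the last group
  obtain ⟨a, hal, haR⟩ := hlast
  have ha1 : a ≠ 1 := by
    rintro rfl
    apply haR
    rw [map_one]
    exact ⟨hγ1, fun i => ⟨hx1 i, hy1 i⟩⟩
  have hl1 : 1 ≤ l := by
    by_contra hc
    have hl0 : l = 0 := by omega
    rw [hl0] at hl
    have := hram a
    rw [hl] at this
    exact ha1 this
  have hρ1 : ∀ g : G', g ≠ 1 → ρ' g ≠ 1 := by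
    intro g hg hg1
    apply hg
    apply hC.inj
    rw [hg1, map_one]
  have hab : (l : ℤ) ≤ P'.b (ρ' a) :=
    (((hRAM k L' G' P' ρ' a l hl1).1 hal).2).resolve_left (hρ1 a ha1)
  have hbl : ∀ g : G', g ≠ 1 → P'.b (ρ' g) ≤ l := by
    intro g hg
    by_contra hc
    rw [not_le] at hc
    have h2 : g ∈ ram P' ρ' (l + 1) := by
      rw [hRAM k L' G' P' ρ' g (l + 1) (by omega)]
      exact ⟨hfix g, Or.inr (by push_cast; omega)⟩
    rw [hl] at h2
    exact hg h2
  have hal' : P'.b (ρ' a) = l := le_antisymm (hbl a ha1) hab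
  have hlst : IsLst (fun g => P'.b (ρ' g)) ⊤ (l : ℤ) :=
    ⟨⟨a, Subgroup.mem_top _, ha1, hal'⟩, fun g _ hg => hbl g hg⟩
  -- Artin-Schreier data on `L'`
  have hev : ∀ r : Polynomial k, Polynomial.aeval (j t) r = j (Polynomial.aeval t r) :=
    fun r => Polynomial.aeval_algHom_apply j t r
  have hjX : ∀ i, (j (X i)) ^ p - j (X i) = Polynomial.aeval (j t) (f i) := by
    intro i
    rw [hev, ← T.X_eq i, map_sub, map_pow]
  have hjY : ∀ i, (j (Y i)) ^ p - j (Y i) = Polynomial.aeval (j t) (h i) := by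
    intro i
    rw [hev, ← T.Y_eq i, map_sub, map_pow]
  have haX : ∀ i (g : G'), ρ' g (j (X i)) = j (X i) + algebraMap k L' (fp k (x i (π g))) := by
    intro i g
    rw [hQ.eqv, T.X_act, map_add, AlgHom.commutes]
  have haY : ∀ i (g : G'), ρ' g (j (Y i)) = j (Y i) + algebraMap k L' (fp k (y i (π g))) := by
    intro i g
    rw [hQ.eqv, T.Y_act, map_add, AlgHom.commutes]
  -- characters off `S`
  let S : Subgroup G' :=
    { carrier := {g | ∀ i, x i (π g) = 0 ∧ y i (π g) = 0}
      mul_mem' := by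
        intro g g' hg hg' i
        rw [map_mul, T.x_mul, T.y_mul, (hg i).1, (hg i).2, (hg' i).1, (hg' i).2, add_zero]
        exact ⟨rfl, rfl⟩
      one_mem' := by
        intro i
        rw [map_one]
        exact ⟨hx1 i, hy1 i⟩
      inv_mem' := by
        intro g hg i
        have e1 := T.x_mul i (π g) (π g⁻¹)
        have e2 := T.y_mul i (π g) (π g⁻¹)
        rw [← map_mul, mul_inv_cancel, map_one, hx1, (hg i).1, zero_add] at e1
        rw [← map_mul, mul_inv_cancel, map_one, hy1, (hg i).2, zero_add] at e2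
        exact ⟨e1.symm, e2.symm⟩ }
  have hSmem : ∀ g : G', g ∈ S ↔ ∀ i, x i (π g) = 0 ∧ y i (π g) = 0 := fun g => Iff.rfl
  have hchar : ∀ g : G', g ∉ S → ∃ (χ : G' → ZMod p) (W : L') (q : Polynomial k), χ g ≠ 0 ∧
      (∀ a b : G', χ (a * b) = χ a + χ b) ∧ (∀ s ∈ S, χ s = 0) ∧ q.natDegree ≤ A ∧
      W ^ p - W = Polynomial.aeval (j t) q ∧
      ∀ g, ρ' g W = W + algebraMap k L' (fp k (χ g)) := by
    intro g hg
    rw [hSmem] at hg
    push Not at hg
    obtain ⟨i, hi⟩ := hg
    by_cases hxi : x i (π g) = 0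
    · exact ⟨fun g => y i (π g), j (Y i), h i, hi hxi,
        fun a b => by
          show y i (π (a * b)) = y i (π a) + y i (π b)
          rw [map_mul, T.y_mul],
        fun s hs => (hs i).2, (hdeg i).2, hjY i, haY i⟩
    · exact ⟨fun g => x i (π g), j (X i), f i, hxi,
        fun a b => by
          show x i (π (a * b)) = x i (π a) + x i (π b)
          rw [map_mul, T.x_mul],
        fun s hs => (hs i).1, (hdeg i).1, hjX i, haX i⟩
  by_cases haS : a ∈ S
  swap
  · -- the last group is not in `S`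
    obtain ⟨χ, W, q, hχ, hadd, -, hq, hW, haW⟩ := hchar a haS
    obtain ⟨W', q', hW', haW', hq1, hqp, hqA⟩ :=
      reduce hXRD hp ρ' (j t) hjt χ a hχ W q A hq hW haW
    have h2 := (hASD p k L' G' ρ' (j t) P' c χ W' q' hp hG' hC hneg hcond hadd hW' haW' ⟨a, hχ⟩
      hq1 hqp).2 l hl ⟨a, hal, hχ⟩
    rw [h2]
    have h3 : (q'.natDegree : ℚ) ≤ A := by exact_mod_cast hqA
    nlinarith
  have hγa : γ a ≠ 0 := fun hh => haR ⟨hh, haS⟩
  rcases hCON k L' G' P' ρ' ⊤ ⊤ c hC.inj h1 h0 hcond with hc0 | ⟨l', hl', hUc⟩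
  · rw [hc0, mul_zero]
    positivity
  have hll : l' = l := by
    obtain ⟨g, -, hg1, hg⟩ := hl'.mem
    have e1 := hbl g hg1
    have e2 : P'.b (ρ' a) ≤ l' := hl'.le a (Subgroup.mem_top _) ha1
    have e3 : P'.b (ρ' g) = l' := hg
    omega
  have hec : (Nat.card G' : ℚ) * c =
      ((l : ℤ) + sm (fun g => P'.b (ρ' g)) {g | g ∈ (⊤ : Subgroup G') ∧ g ≠ 1} : ℤ) := by
    rw [Subgroup.card_top] at hUc
    rw [hUc, U, hll, Subgroup.card_top, mul_div_cancel₀ _ hcardpos'.ne']
    push_cast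
    ring
  -- the subgroup `R`
  have hγS : ∀ s ∈ S, ∀ g : G', γ (s * g) = γ s + γ g := by
    intro s hs g
    rw [T.γ_mul, Finset.sum_eq_zero (fun i _ => by rw [(hs i).1, zero_mul]), add_zero]
  let R : Subgroup G' :=
    { carrier := {g | g ∈ S ∧ γ g = 0}
      mul_mem' := by
        rintro g g' ⟨hg, hg2⟩ ⟨hg', hg2'⟩
        exact ⟨S.mul_mem hg hg', by rw [hγS g hg, hg2, hg2', add_zero]⟩
      one_mem' := ⟨S.one_mem, hγ1⟩
      inv_mem' := by
        rintro g ⟨hg, hg2⟩
        refine ⟨S.inv_mem hg, ?_⟩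
        have := hγS g hg g⁻¹
        rw [mul_inv_cancel, hγ1, hg2, zero_add] at this
        exact this.symm }
  have hRmem : ∀ g : G', g ∈ R ↔ g ∈ S ∧ γ g = 0 := fun g => Iff.rfl
  have hRS : R ≤ S := fun g hg => hg.1
  have haRR : a ∉ R := fun hh => hγa hh.2
  have hzS : z ∈ S := by
    have hz1 : π z = 1 := (T.ker z).2 (Subgroup.mem_zpowers z)
    intro i
    rw [hz1]
    exact ⟨hx1 i, hy1 i⟩
  have hcardS : Nat.card S = p * Nat.card R := by
    let γh : S →* Multiplicative (ZMod p) :=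
      { toFun := fun g => Multiplicative.ofAdd (γ g)
        map_one' := by rw [Subgroup.coe_one, hγ1]; rfl
        map_mul' := fun a b => by rw [Subgroup.coe_mul, hγS a a.2]; rfl }
    have e1 := Subgroup.card_mul_index γh.ker
    have e2 : γh.ker.index = p := by
      have e3 : γh.ker.index = Nat.card γh.range := Subgroup.index_ker γh
      have e4 : Nat.card γh.range ∣ p := by
        have := Subgroup.card_subgroup_dvd_card γh.range
        rwa [Nat.card_eq_fintype_card (α := Multiplicative (ZMod p)), Fintype.card_multiplicative,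
          ZMod.card] at this
      rcases (Nat.dvd_prime hp).1 e4 with e5 | e5
      · exfalso
        have e6 := Subgroup.eq_bot_of_card_eq _ e5
        have e7 : γh ⟨z, hzS⟩ ∈ γh.range := ⟨_, rfl⟩
        rw [e6, Subgroup.mem_bot] at e7
        have e8 : γ z = 0 := e7
        rw [T.γ_z] at e8
        exact one_ne_zero e8
      · rw [e3, e5]
    have e9 : Nat.card γh.ker = Nat.card R := by
      refine Nat.card_congr ⟨fun g => ⟨(g.1 : G'), g.1.2, ?_⟩, fun g => ⟨⟨g.1, g.2.1⟩, ?_⟩,
        fun g => rfl, fun g => rfl⟩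
      · have := g.2
        rw [MonoidHom.mem_ker] at this
        exact this
      · rw [MonoidHom.mem_ker]
        exact g.2.2
    rw [← e1, e2, e9, mul_comm]
  -- conjugation
  have hπR : ∀ g : G', ∀ n ∈ R, g * n * g⁻¹ ∈ R := by
    intro g n hn
    have hnS := hn.1
    have eS : g * n * g⁻¹ ∈ S := by
      intro i
      have e1 := T.x_mul i (π g) (π g⁻¹)
      have e2 := T.y_mul i (π g) (π g⁻¹)
      rw [← map_mul, mul_inv_cancel, map_one, hx1] at e1
      rw [← map_mul, mul_inv_cancel, map_one, hy1] at e2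
      rw [map_mul, map_mul, T.x_mul, T.x_mul, T.y_mul, T.y_mul, (hnS i).1, (hnS i).2, add_zero,
        add_zero]
      exact ⟨e1.symm, e2.symm⟩
    refine ⟨eS, ?_⟩
    have e3 : γ (g * n) = γ g := by
      rw [T.γ_mul, Finset.sum_eq_zero (fun i _ => by rw [(hnS i).2, mul_zero]), hn.2]
      ring
    have e4 := hγS (g * n * g⁻¹) eS g
    rw [inv_mul_cancel_right, e3] at e4
    linear_combination -e4
  -- the coset sums over `R`
  have hcosR : ∀ s ∈ S, s ∉ R →
      sm (fun g => P'.b (ρ' g)) {x | s⁻¹ * x ∈ R} ≤ -P'.ord Z := by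
    intro s hs hsR
    have hγs : γ s ≠ 0 := fun hh => hsR ⟨hs, hh⟩
    obtain ⟨F, hF, Q, hQF⟩ := hFXP k L' G' P' ρ' R hC.inj (fun n _ => hfix n)
    obtain ⟨δ, hδ, hδQ⟩ := hRST k L' G' P' ρ' R F Q s hF hQF (fun n hn => hπR s n hn)
      (fun n hn => by
        have := hπR s⁻¹ n hn
        rwa [inv_inv] at this) (hfix s)
    have hsum0 : ∀ g ∈ S, (∑ i, algebraMap k L (fp k (y i (π g))) * X i) = 0 := by
      intro g hg
      apply Finset.sum_eq_zero
      intro i _
      rw [(hg i).2]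
      simp [fp]
    have hZF : Z ∈ F := by
      rw [hF]
      intro n hn
      rw [hact, hsum0 n hn.1, hn.2]
      simp [fp]
    have hsZ : ρ' s Z = Z + algebraMap k L' (fp k (γ s)) := by
      rw [hact, hsum0 s hs, map_zero, add_zero]
    have hfpne : fp k (γ s) ≠ 0 := fun hh => hγs (fp_inj hp hh)
    have hconst : algebraMap k L' (fp k (γ s)) ≠ 0 := by
      rwa [Ne, map_eq_zero]
    have hZ0 : Z ≠ 0 := by
      intro hh
      rw [hh, map_zero, zero_add] at hsZ
      exact hconst hsZ.symm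
    have hδ1 : δ ≠ 1 := by
      intro hh
      have e1 := hδ ⟨Z, hZF⟩
      rw [hh, AlgEquiv.one_apply] at e1
      have e2 : Z = ρ' s Z := e1
      rw [hsZ] at e2
      exact hconst (by linear_combination -e2)
    have hher := hHER k L' G' P' ρ' R F Q s δ hC.inj (fun n _ => hfix n) hF hQF hsR (hfix s) hδ
      hδQ hδ1
    have hRpos : 0 < (Nat.card R : ℤ) := by
      have : 0 < Nat.card R := Nat.card_pos
      exact_mod_cast this
    have hQb : 0 ≤ Q.b δ := by
      have e1 : 0 ≤ sm (fun g => P'.b (ρ' g)) {x | s⁻¹ * x ∈ R} := by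
        rw [H14UQT.sm_eq]
        apply Finset.sum_nonneg
        intro g _
        by_cases hg : s⁻¹ * g ∈ R
        · rw [if_pos (show g ∈ {x | s⁻¹ * x ∈ R} from hg)]
          have hg1 : g ≠ 1 := by
            rintro rfl
            apply hsR
            have := R.inv_mem hg
            rwa [mul_one, inv_inv] at this
          have : 1 ≤ P'.b (ρ' g) := hU.pos g (Subgroup.mem_top _) hg1
          exact le_trans zero_le_one this
        · rw [if_neg (show ¬ g ∈ {x | s⁻¹ * x ∈ R} from hg)]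
      rw [hher] at e1
      by_contra hc
      rw [not_le] at hc
      nlinarith
    have hlon := hLON k F Q δ Q.pi (Q.b δ) hδQ Q.pi_ne Q.ord_pi hQb
      (Q.ge_mono (Q.ge_ord _) (by unfold Place.b; omega)) ⟨Z, hZF⟩
    have hZF0 : (⟨Z, hZF⟩ : F) ≠ 0 := by
      intro hh
      exact hZ0 (congrArg (fun w : F => (w : L')) hh)
    have hδZ : δ ⟨Z, hZF⟩ - ⟨Z, hZF⟩ = algebraMap k F (fp k (γ s)) := by
      apply Subtype.ext
      rw [AddSubgroupClass.coe_sub, hδ]
      show ρ' s Z - Z = _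
      rw [hsZ, add_sub_cancel_left]
      rfl
    have hge := hlon.resolve_right hZF0
    rw [hδZ] at hge
    have hne2 : algebraMap k F (fp k (γ s)) ≠ 0 := by
      rwa [Ne, map_eq_zero]
    have hle := (Q.ge_iff hne2 _).1 hge
    rw [Q.ord_const _ hfpne] at hle
    have hZQ := hQF ⟨Z, hZF⟩ hZF0
    rw [hher]
    have hZQ' : (Nat.card R : ℤ) * Q.ord ⟨Z, hZF⟩ = P'.ord Z := hZQ
    rw [← hZQ']
    nlinarith
  -- the order of `Z`
  obtain ⟨e', he'⟩ : ∃ e' : ℤ, (Nat.card G' : ℤ) = p * e' := by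
    have : p ∣ Nat.card G' := by
      rw [← T.order]
      exact orderOf_dvd_natCard z
    obtain ⟨q, hq⟩ := this
    exact ⟨q, by rw [hq]; push_cast; ring⟩
  have hpz : (0 : ℤ) < p := by exact_mod_cast hp.pos
  have he'pos : 0 < e' := by
    by_contra hc
    rw [not_lt] at hc
    nlinarith
  have hordZ : -(((Nat.card G' : ℤ) + e') * A) ≤ (p : ℤ) * P'.ord Z := by
    have hZ0 : Z ≠ 0 := by
      intro hh
      have e1 := hact a
      have e2 : (∑ i, algebraMap k L (fp k (y i (π a))) * X i) = 0 := by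
        apply Finset.sum_eq_zero
        intro i _
        rw [(haS i).2]
        simp [fp]
      rw [e2, hh, map_zero, map_zero, zero_add, zero_add] at e1
      have e3 : fp k (γ a) = 0 := by
        have := e1.symm
        rwa [map_eq_zero] at this
      exact hγa (fp_inj hp e3)
    have hM : 0 ≤ ((Nat.card G' : ℤ) + e') * A := by positivity
    refine as_ge P' hp.two_le hM hZ0 ?_
    rw [hZ, map_add, map_sum, map_mul]
    have hge1 : ∀ r : Polynomial k, r.natDegree ≤ A →
        P'.Ge (Polynomial.aeval (j t) r) (-((Nat.card G' : ℤ) * A)) := by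
      intro r hr
      have := ge_aeval P' hjt0 hneg r A hr
      rw [hord] at this
      exact P'.ge_mono this (by nlinarith)
    apply P'.ge_add
    · apply P'.ge_sum
      intro i _
      rw [map_mul, ← hev]
      have e1 : P'.Ge (j (Y i)) (-(e' * A)) := by
        by_cases hY0 : j (Y i) = 0
        · exact Or.inl hY0
        · refine Or.inr ?_
          have e2 := as_ge P' (p := p) (M := (Nat.card G' : ℤ) * A) hp.two_le (by positivity) hY0
            (by rw [hjY]; exact hge1 _ (hdeg i).2)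
          rw [he'] at e2
          have e3 : (p : ℤ) * (-(e' * A)) ≤ p * P'.ord (j (Y i)) := by linarith
          exact le_of_mul_le_mul_left e3 hpz
      exact P'.ge_mono (P'.ge_mul e1 (hge1 _ (hdeg i).1)) (by linarith)
    · have e1 := P'.ge_mul (P'.ge_const α) (P'.ge_ord (j t))
      rw [AlgHom.commutes]
      refine P'.ge_mono e1 ?_
      rw [hord]
      nlinarith
  -- the sums
  have s1 := off_sum hXRD hHBX hp P' ρ' hC.inj (j t) hjt hram hjt0 hord hU S A hchar
  have s2 := step (fun g => P'.b (ρ' g)) R S hRS p (-P'.ord Z) hcardS hcosR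
  have s3 := last_le (fun g => P'.b (ρ' g)) hU R a haRR l hal' hbl
  have s4 := hcosR a haS haRR
  have s5 := split3 (fun g => P'.b (ρ' g)) R S hRS
  have htot : (l : ℤ) + sm (fun g => P'.b (ρ' g)) {g | g ∈ (⊤ : Subgroup G') ∧ g ≠ 1} ≤
      p * (-P'.ord Z) + Nat.card G' * A := by
    rw [s5]
    nlinarith
  have htot2 : (l : ℤ) + sm (fun g => P'.b (ρ' g)) {g | g ∈ (⊤ : Subgroup G') ∧ g ≠ 1} ≤
      (2 * Nat.card G' + e') * A := by
    nlinarith
  have htot3 : (Nat.card G' : ℚ) * c ≤ (2 * Nat.card G' + e') * A := by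
    rw [hec]
    exact_mod_cast htot2
  have he'q : (Nat.card G' : ℚ) = p * e' := by exact_mod_cast he'
  have he'qpos : (0 : ℚ) < e' := by exact_mod_cast he'pos
  rw [he'q] at htot3
  have h9 : (e' : ℚ) * (p * c) ≤ e' * ((2 * p + 1) * A) := by linarith
  exact le_of_mul_le_mul_left h9 he'qpos

end Pool.CND
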